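import Pool.Agent.Lib.helper10.Kit2

namespace Pool.Agent.Results.MP_ef40db_lc.InP

open Pool.Agent.Cx Finset

/-- the lists of the students; lecturer, capacity and lower quota of each project; list and
capacity of each lecturer (numbers in binary) -/
abbrev Inst := List (List ℕ) × List (ℕ × List Bool × List Bool) × List (List ℕ × List Bool)

section
variable (z : Inst)

/-- project `p` is acceptable to student `s` -/
def acc (s p : ℕ) : Prop := p ∈ z.1.getD s []

/-- position of project `p` in the list of student `s` (smaller is better) -/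
def sr (s p : ℕ) : ℕ := (z.1.getD s []).idxOf p

/-- the lecturer who offers `p` -/
def lec (p : ℕ) : ℕ := (z.2.1.getD p (0, [], [])).1

/-- capacity of project `p` -/
def cap (p : ℕ) : ℕ := bin (z.2.1.getD p (0, [], [])).2.1

/-- lower quota of project `p` -/
def low (p : ℕ) : ℕ := bin (z.2.1.getD p (0, [], [])).2.2

/-- position of student `s` in the list of lecturer `l` (smaller is better) -/
def lr (l s : ℕ) : ℕ := (z.2.2.getD l ([], [])).1.idxOf s

/-- capacity of lecturer `l` -/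
def lcap (l : ℕ) : ℕ := bin (z.2.2.getD l ([], [])).2

/-- acceptable projects exist, and their lecturers rank the student -/
def Valid : Prop := ∀ s p, acc z s p → p < z.2.1.length ∧ s ∈ (z.2.2.getD (lec z p) ([], [])).1

/-- the pairs of `M` at project `p` -/
def atP (M : Finset (ℕ × ℕ)) (p : ℕ) : Finset (ℕ × ℕ) := M.filter fun x => x.2 = p

/-- the pairs of `M` at projects of lecturer `l` -/
def atL (M : Finset (ℕ × ℕ)) (l : ℕ) : Finset (ℕ × ℕ) := M.filter fun x => lec z x.2 = l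

def IsMatching (M : Finset (ℕ × ℕ)) : Prop :=
  (∀ x ∈ M, acc z x.1 x.2) ∧ (∀ x ∈ M, ∀ y ∈ M, x.1 = y.1 → x = y) ∧
    (∀ p, #(atP M p) ≤ cap z p) ∧ ∀ l, #(atL z M l) ≤ lcap z l

def Blocks (M : Finset (ℕ × ℕ)) (s p : ℕ) : Prop :=
  (s, p) ∉ M ∧ acc z s p ∧ (∀ x ∈ M, x.1 = s → sr z s p < sr z s x.2) ∧
    ((#(atP M p) < cap z p ∧ #(atL z M (lec z p)) < lcap z (lec z p)) ∨
    (#(atP M p) < cap z p ∧ #(atL z M (lec z p)) = lcap z (lec z p) ∧
      ∃ x ∈ atL z M (lec z p), x.1 = s ∨ lr z (lec z p) s < lr z (lec z p) x.1) ∨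
    (#(atP M p) = cap z p ∧ ∃ x ∈ atP M p, lr z (lec z p) s < lr z (lec z p) x.1))

/-- a stable matching that respects all lower quotas -/
def Good (M : Finset (ℕ × ℕ)) : Prop :=
  IsMatching z M ∧ (∀ s p, ¬ Blocks z M s p) ∧ ∀ p < z.2.1.length, low z p ≤ #(atP M p)

def U : Finset (ℕ × ℕ) := range z.1.length ×ˢ range z.2.1.length

def cd (y : ℕ × ℕ) : ℕ := y.1 * z.2.1.length + y.2

def ble (l : List Bool) (v : ℕ) : Prop := bin l ≤ v

variable (D : List ℕ)

def off (y : ℕ × ℕ) : Prop :=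
  acc z y.1 y.2 ∧ ¬ ∃ p ∈ z.1.getD y.1 [], sr z y.1 p < sr z y.1 y.2 ∧ ¬ cd z (y.1, p) ∈ D

def inN (y : ℕ × ℕ) : Prop := off z D y ∧ ¬ cd z y ∈ D

instance : DecidablePred (off z D) := fun _ => by unfold off acc; infer_instance
instance : DecidablePred (inN z D) := fun _ => by unfold inN; infer_instance

def N : Finset (ℕ × ℕ) := (U z).filter (inN z D)

def T1 (x : ℕ × ℕ) : Finset (ℕ × ℕ) :=
  (U z).filter fun y => off z D y ∧ y.2 = x.2 ∧ lr z (lec z x.2) y.1 < lr z (lec z x.2) x.1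

def T2 (x : ℕ × ℕ) : Finset (ℕ × ℕ) := (U z).filter fun y =>
  off z D y ∧ lec z y.2 = lec z x.2 ∧ y ≠ x ∧ lr z (lec z x.2) y.1 ≤ lr z (lec z x.2) x.1

def rho (T : Finset (ℕ × ℕ)) : ℕ :=
  ∑ q ∈ range z.2.1.length, mb (z.2.1.getD q (0, [], [])).2.1 #(atP T q)

def R12 (x : ℕ × ℕ) : Prop := ble (z.2.1.getD x.2 (0, [], [])).2.1 #(T1 z D x) ∨
  ble (z.2.2.getD (lec z x.2) ([], [])).2 (rho z (T2 z D x))

def closed : Prop := ¬ ∃ s < z.1.length, ∃ p < z.2.1.length, ¬ cd z (s, p) ∈ D ∧ R12 z D (s, p)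

def short (p : ℕ) : Prop := ¬ ble (z.2.1.getD p (0, [], [])).2.2 #(atP (N z D) p)

def R3 (x : ℕ × ℕ) : Prop := closed z D ∧ inN z D x ∧
  (∃ p < z.2.1.length, lec z p = lec z x.2 ∧ short z D p) ∧
  ¬ ∃ s < z.1.length, ∃ p < z.2.1.length, inN z D (s, p) ∧ lec z p = lec z x.2 ∧
    lr z (lec z x.2) x.1 < lr z (lec z x.2) s

def rule (i : ℕ) : Prop := i ∈ D ∨ R12 z D (i / z.2.1.length, i % z.2.1.length) ∨
  R3 z D (i / z.2.1.length, i % z.2.1.length)

def test : Prop := (¬ ∃ s < z.1.length, ∃ p < z.2.1.length, off z D (s, p) ∧ cd z (s, p) ∈ D ∧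
    ¬ ble (z.2.1.getD p (0, [], [])).2.1 #(atP (N z D) p) ∧
    ¬ ble (z.2.2.getD (lec z p) ([], [])).2 #(atL z (N z D) (lec z p))) ∧
  ¬ ∃ p < z.2.1.length, short z D p

instance (i : ℕ) : Decidable (rule z D i) := by unfold rule R3 closed R12 short ble; infer_instance
instance : Decidable (test z D) := by unfold test short ble; infer_instance

def fin : List ℕ := clo (z.1.length * z.2.1.length) (fun D i => decide (rule z D i)) []

def out : Bool × List (ℕ × ℕ) := (decide (test z (fin z)),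
  (List.range z.1.length ×ˢ List.range z.2.1.length).filter fun y => decide (inN z (fin z) y))

end

lemma out_pt : PT out := by
  have b : PP fun p : List Bool × ℕ => ble p.1 p.2 := by
    have : PP fun p : List Bool × ℕ => mb p.1 (p.2 + 1) ≤ p.2 := by fun_prop
    convert this using 2
    simp only [ble, mb]; omega
  have : PT fun p : Inst × ℕ × ℕ => sr p.1 p.2.1 p.2.2 := by unfold sr; fun_prop
  have : PT fun p : Inst × ℕ × ℕ => lr p.1 p.2.1 p.2.2 := by unfold lr; fun_prop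
  have : PT fun p : Inst × ℕ => lec p.1 p.2 := by unfold lec; fun_prop
  have : PT fun p : Inst × ℕ × ℕ => cd p.1 p.2 := by unfold cd; fun_prop
  have : PP fun p : Inst × List ℕ × ℕ × ℕ => off p.1 p.2.1 p.2.2 := by unfold off acc; fun_prop
  have : PP fun p : Inst × List ℕ × ℕ × ℕ => inN p.1 p.2.1 p.2.2 := by unfold inN; fun_prop
  have a1 : PT fun p : Inst × List ℕ × ℕ × ℕ => #(T1 p.1 p.2.1 p.2.2) :=
    PT.card2 (by fun_prop) (by fun_prop) (by fun_prop)
  have a2 : PT fun p : (Inst × List ℕ × ℕ × ℕ) × ℕ => #(atP (T2 p.1.1 p.1.2.1 p.1.2.2) p.2) := by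
    simp only [atP, T2, filter_filter]
    exact PT.card2 (by fun_prop) (by fun_prop) (by fun_prop)
  have a3 : PT fun p : Inst × List ℕ × ℕ × ℕ => rho p.1 (T2 p.1 p.2.1 p.2.2) :=
    PT.sumRange (by fun_prop) (PT.mb (by fun_prop) a2)
  have a4 : PT fun p : Inst × List ℕ × ℕ => #(atP (N p.1 p.2.1) p.2.2) := by
    simp only [atP, N, filter_filter]
    exact PT.card2 (by fun_prop) (by fun_prop) (by fun_prop)
  have a5 : PT fun p : Inst × List ℕ × ℕ => #(atL p.1 (N p.1 p.2.1) (lec p.1 p.2.2)) := by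
    simp only [atL, N, filter_filter]
    exact PT.card2 (by fun_prop) (by fun_prop) (by fun_prop)
  have : PP fun p : Inst × List ℕ × ℕ × ℕ => R12 p.1 p.2.1 p.2.2 :=
    (b.comp (PT.pair (by fun_prop) a1)).or (b.comp (PT.pair (by fun_prop) a3))
  have : PP fun p : Inst × List ℕ => closed p.1 p.2 := by unfold closed; fun_prop
  have : PP fun p : Inst × List ℕ × ℕ => short p.1 p.2.1 p.2.2 :=
    (b.comp (PT.pair (by fun_prop) a4)).not
  have : PP fun p : Inst × List ℕ × ℕ × ℕ => R3 p.1 p.2.1 p.2.2 := by unfold R3; fun_prop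
  have : PT fin := PT.clo (by fun_prop) (PP.decide (by unfold rule; fun_prop)) (by fun_prop)
  have : PP fun p : Inst × List ℕ => test p.1 p.2 :=
    (PP.bex_lt (PP.bex_lt (PP.and (by fun_prop) (PP.and (by fun_prop) (PP.and
      (b.comp (PT.pair (by fun_prop) (a4.comp
        (f := fun x : ((Inst × List ℕ) × ℕ) × ℕ => (x.1.1.1, x.1.1.2, x.2)) (by fun_prop)))).not
      (b.comp (PT.pair (by fun_prop) (a5.comp
        (f := fun x : ((Inst × List ℕ) × ℕ) × ℕ => (x.1.1.1, x.1.1.2, x.2)) (by fun_prop)))).not)))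
      (by fun_prop)) (by fun_prop)).not.and (by fun_prop)
  exact PT.pair (PP.decide (by fun_prop)) (PT.filter (PP.decide (by fun_prop)) (by fun_prop))

section
variable {z : Inst} {D : List ℕ} {M T I : Finset (ℕ × ℕ)} {x y : ℕ × ℕ}

lemma le_rho (a : I ⊆ T) (b : I ⊆ U z) (c : ∀ q, #(atP I q) ≤ cap z q) : #I ≤ rho z T := by
  rw [card_eq_sum_card_fiberwise (f := Prod.snd) (t := range z.2.1.length)
    fun x hx => (mem_product.1 (b hx)).2]
  exact sum_le_sum fun q _ => le_min (c q) (card_le_card (filter_subset_filter _ a))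

lemma rho_le (c : ∀ q, atP T q ⊆ I ∨ cap z q ≤ #(atP I q)) : rho z T ≤ #I := by
  refine le_trans (sum_le_sum fun q _ => ?_)
    ((sum_card_fiberwise_eq_card_filter I (range z.2.1.length) Prod.snd).le.trans (card_filter_le _ _))
  exact (c q).elim (fun h => (min_le_right _ _).trans (card_le_card fun x hx =>
    mem_filter.2 ⟨h hx, (mem_filter.1 hx).2⟩)) (min_le_left _ _).trans

lemma sr_inj {s p q : ℕ} (h : acc z s p) (e : sr z s p = sr z s q) : p = q := (List.idxOf_inj h).1 e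

lemma atP_erase (q : ℕ) : #(atP (M.erase x) q) ≤ #(atP M q) :=
  card_le_card (filter_subset_filter _ (erase_subset _ _))

lemma one (hx : inN z D x) (hy : inN z D y) (e : x.1 = y.1) : x = y := by
  have a : ¬ _ := fun h => hx.1.2 ⟨y.2, e ▸ hy.1.1, h, e ▸ hy.2⟩
  have b : ¬ _ := fun h => hy.1.2 ⟨x.2, e ▸ hx.1.1, h, e ▸ hx.2⟩
  rw [← e] at b
  exact Prod.ext e (sr_inj hx.1.1 (by omega))

variable (hz : Valid z)
include hz

lemma memU (h : acc z x.1 x.2) : x ∈ U z :=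
  mem_product.2 ⟨mem_range.2 (by
    by_contra c
    simp [acc, List.getElem?_eq_none (not_lt.1 c)] at h), mem_range.2 (hz _ _ h).1⟩

lemma lr_inj {s s' p : ℕ} (h : acc z s p) (e : lr z (lec z p) s = lr z (lec z p) s') : s = s' :=
  (List.idxOf_inj (hz _ _ h).2).1 e

lemma mN : x ∈ N z D ↔ inN z D x := mem_filter.trans ⟨And.right, fun h => ⟨memU hz h.1.1, h⟩⟩

lemma best {s p : ℕ} (h : acc z s p) (e : cd z (s, p) ∉ D) :
    ∃ q, (s, q) ∈ N z D ∧ sr z s q ≤ sr z s p := by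
  obtain ⟨q, a, b⟩ := exists_min_image ((z.1.getD s []).toFinset.filter fun q => cd z (s, q) ∉ D)
    (sr z s) ⟨p, by simpa using ⟨h, e⟩⟩
  simp only [mem_filter, List.mem_toFinset, and_imp] at a b
  exact ⟨q, (mN hz).2 ⟨⟨a.1, fun ⟨r, c, d, e⟩ => (b r c e).not_gt d⟩, a.2⟩, b p h e⟩

lemma notR (hc : closed z D) (hx : x ∈ N z D) : #(T1 z D x) < cap z x.2 ∧
    rho z (T2 z D x) < lcap z (lec z x.2) := by
  have := mem_product.1 (mem_filter.1 hx).1
  have := fun h => hc ⟨x.1, mem_range.1 this.1, x.2, mem_range.1 this.2, ((mN hz).1 hx).2, h⟩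
  exact ⟨not_le.1 fun h => this (Or.inl h), not_le.1 fun h => this (Or.inr h)⟩

lemma worstP (hc : closed z D) {p : ℕ} (h : (atP (N z D) p).Nonempty) : ∃ x ∈ atP (N z D) p,
    (atP (N z D) p).erase x ⊆ T1 z D x ∧ #(T1 z D x) < cap z p ∧
    ∀ y ∈ atP (N z D) p, lr z (lec z p) y.1 ≤ lr z (lec z p) x.1 := by
  obtain ⟨x, a, b⟩ := exists_max_image _ (fun y => lr z (lec z p) y.1) h
  obtain ⟨a1, rfl⟩ := mem_filter.1 a
  refine ⟨x, a, fun y hy => ?_, (notR hz hc a1).1, b⟩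
  obtain ⟨c, d⟩ := mem_erase.1 hy
  obtain ⟨d1, d2⟩ := mem_filter.1 d
  have e := (mN hz).1 d1
  exact mem_filter.2 ⟨memU hz e.1.1, e.1, d2, (b y d).lt_of_ne fun f =>
    c (Prod.ext (lr_inj hz (d2 ▸ e.1.1) f) d2)⟩

lemma capP (hc : closed z D) (p : ℕ) : #(atP (N z D) p) ≤ cap z p := by
  rcases (atP (N z D) p).eq_empty_or_nonempty with h | h
  · simp [h]
  · obtain ⟨x, a, b, c, -⟩ := worstP hz hc h
    have := card_le_card b
    rw [card_erase_of_mem a] at this; omega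

lemma capI (hc : closed z D) (h : I ⊆ N z D) (p : ℕ) : #(atP I p) ≤ cap z p :=
  (card_le_card (filter_subset_filter _ h)).trans (capP hz hc p)

lemma worstL (hc : closed z D) {l : ℕ} (h : (atL z (N z D) l).Nonempty) : ∃ x ∈ atL z (N z D) l,
    (atL z (N z D) l).erase x ⊆ T2 z D x ∧ rho z (T2 z D x) < lcap z l ∧
    ∀ y ∈ atL z (N z D) l, lr z l y.1 ≤ lr z l x.1 := by
  obtain ⟨x, a, b⟩ := exists_max_image _ (fun y => lr z l y.1) h
  obtain ⟨a1, rfl⟩ := mem_filter.1 a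
  refine ⟨x, a, fun y hy => ?_, (notR hz hc a1).2, b⟩
  obtain ⟨c, d⟩ := mem_erase.1 hy
  obtain ⟨d1, d2⟩ := mem_filter.1 d
  have e := (mN hz).1 d1
  exact mem_filter.2 ⟨memU hz e.1.1, e.1, d2, c, b y d⟩

lemma capL (hc : closed z D) (l : ℕ) : #(atL z (N z D) l) ≤ lcap z l := by
  rcases (atL z (N z D) l).eq_empty_or_nonempty with h | h
  · simp [h]
  · obtain ⟨x, a, b, c, -⟩ := worstL hz hc h
    have := le_rho b (b.trans (filter_subset _ _))
      (capI hz hc ((erase_subset _ _).trans (filter_subset _ _)))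
    rw [card_erase_of_mem a] at this; omega

omit hz in
lemma ins {p : ℕ} (a : ∀ q, #(atP I q) ≤ cap z q) (b : #(atP I y.2) < cap z y.2) :
    #(atP (insert y I) p) ≤ cap z p := by
  simp only [atP, filter_insert] at *
  split_ifs with h
  · exact (card_insert_le _ _).trans (h ▸ b)
  · exact a p

lemma good_of (hc : closed z D) (ht : test z D) : Good z (N z D) := by
  refine ⟨⟨fun x hx => ((mN hz).1 hx).1.1, fun x hx y hy => one ((mN hz).1 hx) ((mN hz).1 hy),
    capP hz hc, capL hz hc⟩, ?_, fun p hp => not_not.1 fun h => ht.2 ⟨p, hp, h⟩⟩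
  rintro s p ⟨h1, h2, h3, h4⟩
  have o : off z D (s, p) := ⟨h2, fun ⟨q, a, b, c⟩ => by
    obtain ⟨r, d, e⟩ := best hz a c
    have := h3 _ d rfl
    simp only at *; omega⟩
  have u := memU (x := (s, p)) hz h2
  rcases h4 with ⟨a, b⟩ | ⟨a, b, w, c, d⟩ | ⟨a, w, c, d⟩
  · have := mem_product.1 u
    exact ht.1 ⟨s, mem_range.1 this.1, p, mem_range.1 this.2, o,
      not_not.1 fun c => h1 ((mN hz).2 ⟨o, c⟩), a.not_ge, b.not_ge⟩
  · obtain ⟨x, e1, e2, e3, e4⟩ := worstL hz hc ⟨w, c⟩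
    have e5 := e4 w c
    obtain ⟨x1, x2⟩ := mem_filter.1 e1
    have s1 : (atL z (N z D) (lec z p)).erase x ⊆ N z D := (erase_subset _ _).trans (filter_subset _ _)
    have s2 : insert (s, p) ((atL z (N z D) (lec z p)).erase x) ⊆ T2 z D x :=
      insert_subset (mem_filter.2 ⟨u, o, x2.symm, fun f => h1 (f ▸ x1), by
        rw [x2]; rcases d with rfl | d <;> simp only <;> omega⟩) e2
    have := le_rho s2 (s2.trans (filter_subset _ _)) fun q => ins (capI hz hc s1)
      ((card_le_card (filter_subset_filter _ s1)).trans_lt a)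
    rw [card_insert_of_notMem fun f => h1 (s1 f), card_erase_of_mem e1] at this
    have := card_pos.2 ⟨_, e1⟩
    omega
  · obtain ⟨x, e1, e2, e3, e4⟩ := worstP hz hc ⟨w, c⟩
    have e5 := e4 w c
    obtain ⟨x1, x2⟩ := mem_filter.1 e1
    have : #(insert (s, p) ((atP (N z D) p).erase x)) ≤ #(T1 z D x) :=
      card_le_card (insert_subset (mem_filter.2 ⟨u, o, x2.symm, by rw [x2]; exact d.trans_le e5⟩) e2)
    rw [card_insert_of_notMem (s := (atP (N z D) p).erase x)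
      fun f => h1 (mem_filter.1 (mem_of_mem_erase f)).1, card_erase_of_mem e1] at this
    have := card_pos.2 ⟨_, e1⟩
    omega

variable (hM : Good z M) (hD : ∀ x ∈ M, cd z x ∉ D)
include hM hD

lemma nb (o : off z D y) (h : y ∉ M) :
    (#(atP M y.2) < cap z y.2 → #(atL z M (lec z y.2)) = lcap z (lec z y.2) ∧
      ∀ x ∈ atL z M (lec z y.2), lr z (lec z y.2) x.1 < lr z (lec z y.2) y.1) ∧
    ∀ x ∈ atP M y.2, lr z (lec z y.2) x.1 ≤ lr z (lec z y.2) y.1 := by
  have k := fun c => hM.2.1 y.1 y.2 ⟨h, o.1, fun x hx e => by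
    have a := e ▸ hM.1.1 x hx
    have : ¬ _ := fun c => o.2 ⟨x.2, a, c, e ▸ hD x hx⟩
    have : ¬ _ := fun c => h ((Prod.ext e (sr_inj a c) : x = y) ▸ hx)
    omega, c⟩
  have := hM.1.2.2.1 y.2
  have := hM.1.2.2.2 (lec z y.2)
  have k1 : #(atP M y.2) < cap z y.2 → #(atL z M (lec z y.2)) = lcap z (lec z y.2) ∧
      ∀ x ∈ atL z M (lec z y.2), lr z (lec z y.2) x.1 < lr z (lec z y.2) y.1 := fun a => by
    have b : #(atL z M (lec z y.2)) = lcap z (lec z y.2) := by
      have : ¬ _ := fun c => k (Or.inl ⟨a, c⟩)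
      omega
    refine ⟨b, fun x hx => ?_⟩
    have c := fun c => k (Or.inr (Or.inl ⟨a, b, x, hx, c⟩))
    have : ¬ _ := fun d => c (Or.inr d)
    have : ¬ _ := fun d => c (Or.inl (lr_inj hz o.1 d).symm)
    omega
  refine ⟨k1, fun x hx => not_lt.1 fun c => ?_⟩
  by_cases a : #(atP M y.2) < cap z y.2
  · exact ((k1 a).2 x (mem_filter.2 ⟨(mem_filter.1 hx).1, by rw [(mem_filter.1 hx).2]⟩)).not_gt c
  · exact k (Or.inr (Or.inr ⟨by omega, x, hx, c⟩))

lemma sound12 (hx : x ∈ M) (h : R12 z D x) : False := by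
  have xP : x ∈ atP M x.2 := mem_filter.2 ⟨hx, rfl⟩
  have xL : x ∈ atL z M (lec z x.2) := mem_filter.2 ⟨hx, rfl⟩
  rcases h with h | h
  · have : T1 z D x ⊆ (atP M x.2).erase x := fun y hy => by
      obtain ⟨-, a, b, c⟩ := mem_filter.1 hy
      refine mem_erase.2 ⟨fun e => by simp [e] at c, mem_filter.2 ⟨by_contra fun e => ?_, b⟩⟩
      exact (b ▸ (nb hz hM hD a e).2 x (b ▸ xP)).not_gt c
    have := card_le_card this
    have := hM.1.2.2.1 x.2
    have := card_pos.2 ⟨_, xP⟩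
    change cap z x.2 ≤ _ at h
    rw [card_erase_of_mem xP] at *; omega
  · have : rho z (T2 z D x) ≤ #((atL z M (lec z x.2)).erase x) := rho_le fun q => by
      refine or_iff_not_imp_left.2 fun c => ?_
      obtain ⟨y, a, b⟩ := not_subset.1 c
      obtain ⟨a0, rfl⟩ := mem_filter.1 a
      obtain ⟨-, a1, a2, a3, a4⟩ := mem_filter.1 a0
      obtain ⟨d, e⟩ := nb hz hM hD a1 fun e => b (mem_erase.2 ⟨a3, mem_filter.2 ⟨e, a2⟩⟩)
      rw [a2] at d e
      refine (not_lt.1 fun f => ((d f).2 x xL).not_ge a4).trans (card_le_card fun w hw => ?_)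
      obtain ⟨w1, w2⟩ := mem_filter.1 hw
      refine mem_filter.2 ⟨mem_erase.2 ⟨?_, mem_filter.2 ⟨w1, w2 ▸ a2⟩⟩, w2⟩
      rintro rfl
      exact a3 (Prod.ext (lr_inj hz (w2 ▸ a1.1) (a4.antisymm (e _ hw))) w2.symm)
    have := hM.1.2.2.2 (lec z x.2)
    have := card_pos.2 ⟨_, xL⟩
    change lcap z _ ≤ _ at h
    rw [card_erase_of_mem xL] at *; omega

lemma le_M {l : ℕ} (a : ∀ y ∈ I, off z D y ∧ lec z y.2 = l) (b : ∀ q, #(atP I q) ≤ cap z q)
    (c : #I ≤ lcap z l) : #I ≤ #(atL z M l) := by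
  by_contra d
  refine d ((le_rho subset_rfl (fun y hy => memU hz (a y hy).1.1) b).trans (rho_le fun q => ?_))
  refine or_iff_not_imp_left.2 fun c => ?_
  obtain ⟨y, e, f⟩ := not_subset.1 c
  obtain ⟨e0, rfl⟩ := mem_filter.1 e
  obtain ⟨a1, rfl⟩ := a y e0
  have := (nb hz hM hD a1 fun e => f (mem_filter.2 ⟨e, rfl⟩)).1
  refine (not_lt.1 fun g => by have := (this g).1; omega).trans (card_le_card fun w hw => ?_)
  obtain ⟨w1, w2⟩ := mem_filter.1 hw
  exact mem_filter.2 ⟨mem_filter.2 ⟨w1, by rw [w2]⟩, w2⟩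

lemma eq_M (hc : closed z D) (l : ℕ) : #(atL z (N z D) l) = #(atL z M l) := by
  have a : ∀ l, #(atL z (N z D) l) ≤ #(atL z M l) := fun l => le_M hz hM hD
    (fun y hy => ⟨((mN hz).1 (mem_filter.1 hy).1).1, (mem_filter.1 hy).2⟩)
    (capI hz hc (filter_subset _ _)) (capL hz hc l)
  have b : #M ≤ #(N z D) := by
    rw [← card_image_of_injOn (f := Prod.fst) hM.1.2.1]
    refine (card_le_card fun s hs => ?_).trans (card_image_le (f := Prod.fst))
    obtain ⟨x, hx, rfl⟩ := mem_image.1 hs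
    obtain ⟨q, e, -⟩ := best hz (hM.1.1 x hx) (hD x hx)
    exact mem_image.2 ⟨_, e, rfl⟩
  let L := insert l ((U z).image fun x => lec z x.2)
  rw [card_eq_sum_card_fiberwise (f := fun x => lec z x.2) (t := L) fun x hx =>
      mem_insert_of_mem (mem_image_of_mem _ (memU hz (hM.1.1 x hx))),
    card_eq_sum_card_fiberwise (s := N z D) (f := fun x => lec z x.2) (t := L) fun x hx =>
      mem_insert_of_mem (mem_image_of_mem _ (mem_filter.1 hx).1)] at b
  exact (sum_eq_sum_iff_of_le fun l _ => a l).1 ((sum_le_sum fun l _ => a l).antisymm b) l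
    (mem_insert_self _ _)

lemma sound3 (hx : x ∈ M) (h : R3 z D x) : False := by
  obtain ⟨hc, -, ⟨p, p1, p2, p3⟩, h⟩ := h
  have e := eq_M hz hM hD hc (lec z x.2)
  have f : ∀ M : Finset (ℕ × ℕ), M ⊆ U z → #(atL z M (lec z x.2)) =
      ∑ q ∈ range z.2.1.length, #(atP (atL z M (lec z x.2)) q) := fun M h =>
    card_eq_sum_card_fiberwise (f := Prod.snd) fun x hx => (mem_product.1 (h (mem_filter.1 hx).1)).2
  have g : ∀ (M : Finset (ℕ × ℕ)) q, lec z q = lec z x.2 → atP (atL z M (lec z x.2)) q = atP M q :=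
    fun M q h => by
    ext w; simp only [atP, atL, mem_filter]
    exact ⟨fun a => ⟨a.1.1, a.2⟩, fun a => ⟨⟨a.1, a.2 ▸ h⟩, a.2⟩⟩
  rw [f (N z D) (filter_subset _ _), f M fun x hx => memU hz (hM.1.1 x hx)] at e
  refine e.not_lt (sum_lt_sum (fun q _ => not_lt.1 fun c => ?_) ⟨p, mem_range.2 p1, by
    rw [g _ _ p2, g _ _ p2]; exact (not_le.1 p3).trans_le (hM.2.2 p p1)⟩)
  obtain ⟨y, a0, b⟩ := exists_mem_notMem_of_card_lt_card c
  obtain ⟨a1, rfl⟩ := mem_filter.1 a0
  obtain ⟨a, a'⟩ := mem_filter.1 a1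
  have u := mem_product.1 (mem_filter.1 a).1
  rw [g _ _ a', g _ _ a'] at c
  have := ((nb hz hM hD ((mN hz).1 a).1 fun e => b (mem_filter.2 ⟨mem_filter.2 ⟨e, a'⟩, rfl⟩)).1
    (c.trans_le (capP hz hc _))).2 x (mem_filter.2 ⟨hx, a'.symm⟩)
  exact h ⟨y.1, mem_range.1 u.1, y.2, mem_range.1 u.2, (mN hz).1 a, a', a' ▸ this⟩

lemma test_of (hc : closed z D) (h3 : ∀ x ∈ N z D, ¬ R3 z D x) : test z D := by
  refine ⟨?_, ?_⟩
  · rintro ⟨s, -, p, -, o, a, b, c⟩
    have s1 : atL z (N z D) (lec z p) ⊆ N z D := filter_subset _ _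
    have n : (s, p) ∉ atL z (N z D) (lec z p) := fun e => ((mN hz).1 (s1 e)).2 a
    have := le_M hz hM hD (I := insert (s, p) (atL z (N z D) (lec z p))) (l := lec z p)
      (by
        simp only [mem_insert]
        rintro y (rfl | hy)
        exacts [⟨o, rfl⟩, ⟨((mN hz).1 (s1 hy)).1, (mem_filter.1 hy).2⟩])
      (fun q => ins (capI hz hc s1) ((card_le_card (filter_subset_filter _ s1)).trans_lt (not_le.1 b)))
      (by rw [card_insert_of_notMem n]; exact not_le.1 c)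
    rw [card_insert_of_notMem n, eq_M hz hM hD hc] at this
    omega
  · rintro ⟨p, a, b⟩
    rcases (atL z (N z D) (lec z p)).eq_empty_or_nonempty with h | h
    · have := eq_M hz hM hD hc (lec z p)
      have : #(atP M p) ≤ #(atL z M (lec z p)) := card_le_card fun w hw =>
        mem_filter.2 ⟨(mem_filter.1 hw).1, by rw [(mem_filter.1 hw).2]⟩
      have := (not_le.1 b).trans_le (hM.2.2 p a)
      simp only [h, card_empty] at *; omega
    · obtain ⟨x, e1, -, -, e4⟩ := worstL hz hc h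
      obtain ⟨x1, x2⟩ := mem_filter.1 e1
      exact h3 x x1 ⟨hc, (mN hz).1 x1, ⟨p, a, x2.symm, b⟩, fun ⟨s, _, q, _, c, d, e⟩ =>
        (e4 (s, q) (mem_filter.2 ⟨(mN hz).2 c, d.trans x2⟩)).not_gt (x2 ▸ e)⟩

end

theorem result : ∃ f, PolyTime f ∧ ∀ z, Valid z → ∃ o : Bool × List (ℕ × ℕ), f (enc z) = enc o ∧
    if o.1 then Good z o.2.toFinset else ¬ ∃ M, Good z M := by
  obtain ⟨f, h1, h2⟩ := polyTime_fun out_pt
  refine ⟨f, h1, fun z hz => ⟨_, h2 z, ?_⟩⟩
  have dc : ∀ x ∈ U z, (cd z x / z.2.1.length, cd z x % z.2.1.length) = x ∧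
      cd z x < z.1.length * z.2.1.length := fun x hx => by
    obtain ⟨a, b⟩ := mem_product.1 hx
    rw [mem_range] at a b
    refine ⟨Prod.ext ?_ ?_, by unfold cd; nlinarith⟩ <;> simp only [cd]
    · rw [mul_comm, Nat.mul_add_div (by omega), Nat.div_eq_of_lt b]; rfl
    · rw [mul_comm, Nat.mul_add_mod, Nat.mod_eq_of_lt b]
  have fx : ∀ x ∈ U z, R12 z (fin z) x ∨ R3 z (fin z) x → cd z x ∈ fin z := fun x hx h =>
    clo_fix (c := fun D i => decide (rule z D i)) (fun D i h => decide_eq_true (Or.inl h)) _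
      (dc x hx).2 (decide_eq_true (Or.inr ((dc x hx).1.symm ▸ h)))
  have hc : closed z (fin z) := fun ⟨s, a, p, b, c, d⟩ =>
    c (fx _ (mem_product.2 ⟨mem_range.2 a, mem_range.2 b⟩) (Or.inl d))
  have e : (out z).2.toFinset = N z (fin z) := by ext ⟨a, b⟩; simp [out, N, U]
  split_ifs with h
  · exact e ▸ good_of hz hc (of_decide_eq_true h)
  · rintro ⟨M, hM⟩
    have : ∀ i ∈ fin z, ∀ x ∈ M, cd z x ≠ i := clo_ind _ (by simp) fun E hE i _ r x hx e => by
      have hD : ∀ x ∈ M, cd z x ∉ E := fun x hx c => hE _ c x hx rfl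
      subst e
      rw [decide_eq_true_eq, rule, (dc x (memU hz (hM.1.1 x hx))).1] at r
      exact r.elim (hD x hx) fun r => r.elim (sound12 hz hM hD hx) (sound3 hz hM hD hx)
    exact h (decide_eq_true (test_of hz hM (fun x hx c => this _ c x hx rfl) hc fun x hx r =>
      ((mN hz).1 hx).2 (fx x (mem_filter.1 hx).1 (Or.inr r))))

end Pool.Agent.Results.MP_ef40db_lc.InP
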